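import Pool.Agent.SZT.StmtsB

/-!
# Squad SZT, row NRM (block B): the norm of a generator
-/

set_option autoImplicit false

noncomputable section

open Polynomial H58Q

namespace Pool.Agent.SZT.H7

variable {K : Type} [Field K]

/-- the conjugation -/
def cj (f : K[X]) : Q K f →+* Q K f where
  toFun u := ⟨u.re, -u.im⟩
  map_one' := by
    ext1
    · rfl
    · show -(0 : K[X]) = 0
      exact neg_zero
  map_zero' := by ext1 <;> simp
  map_add' a b := by
    ext1
    · simp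
    · simp only [QuadraticAlgebra.im_add]
      ring
  map_mul' a b := by
    ext1
    · simp only [QuadraticAlgebra.re_mul]
      ring
    · simp only [QuadraticAlgebra.im_mul]
      ring

theorem cj_mk (f p q : K[X]) : cj f (⟨p, q⟩ : Q K f) = ⟨p, -q⟩ := rfl

theorem map_MI (f A B : K[X]) : (MI f A B).map (cj f) = MI f A (-B) := by
  rw [MI, MI, Ideal.map_span, Set.image_pair, cj_mk, cj_mk]
  have h1 : (⟨-B, -1⟩ : Q K f) = -⟨B, 1⟩ := by
    ext1 <;> simp
  rw [neg_zero, neg_neg, h1, Ideal.span_insert, Ideal.span_insert, Ideal.span_singleton_neg]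

theorem dvd_of_dvd (f p q : K[X]) (h : (⟨p, 0⟩ : Q K f) ∣ ⟨q, 0⟩) : p ∣ q := by
  obtain ⟨w, hw⟩ := h
  refine ⟨w.re, ?_⟩
  have := congrArg QuadraticAlgebra.re hw
  simpa [QuadraticAlgebra.re_mul] using this

theorem nrm (inv : B.InvStmt) : B.NrmStmt := by
  intro K _ f A B ψ h2 hodd hsq hM hI
  have hJ : MI f (A 0) (-B 0) * MI f (A 1) (-B 1) * MI f (A 2) (-B 2) =
      Ideal.span {cj f ψ} := by
    have h3 := congrArg (Ideal.map (cj f)) hI
    rw [Ideal.map_mul, Ideal.map_mul, map_MI, map_MI, map_MI, Ideal.map_span,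
      Set.image_singleton] at h3
    exact h3
  have h4 : Ideal.span {ψ * cj f ψ} =
      Ideal.span {((⟨A 0, 0⟩ * ⟨A 1, 0⟩ * ⟨A 2, 0⟩ : Q K f))} := by
    rw [← Ideal.span_singleton_mul_span_singleton, ← hI, ← hJ,
      ← Ideal.span_singleton_mul_span_singleton, ← Ideal.span_singleton_mul_span_singleton,
      ← inv K f (A 0) (B 0) h2 hsq (hM 0), ← inv K f (A 1) (B 1) h2 hsq (hM 1),
      ← inv K f (A 2) (B 2) h2 hsq (hM 2)]
    ring
  have h5 : ψ * cj f ψ = (⟨ψ.re ^ 2 - f * ψ.im ^ 2, 0⟩ : Q K f) := by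
    ext1
    · simp only [QuadraticAlgebra.re_mul, cj]
      simp
      ring
    · simp only [QuadraticAlgebra.im_mul, cj]
      simp
      ring
  have h6 : ((⟨A 0, 0⟩ * ⟨A 1, 0⟩ * ⟨A 2, 0⟩ : Q K f)) = ⟨A 0 * A 1 * A 2, 0⟩ := by
    ext1
    · simp
    · simp
  rw [h5, h6] at h4
  have h7 := dvd_of_dvd f _ _ (Ideal.span_singleton_le_span_singleton.1 h4.le)
  have h8 := dvd_of_dvd f _ _ (Ideal.span_singleton_le_span_singleton.1 h4.ge)
  obtain ⟨u, hu⟩ := associated_of_dvd_dvd h7 h8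
  obtain ⟨κ, hκ, hκ2⟩ := Polynomial.isUnit_iff.1 u.isUnit
  refine ⟨κ, hκ.ne_zero, ?_⟩
  rw [hκ2, ← hu]
  ring

end Pool.Agent.SZT.H7
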